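import Pool.Agent.R299.CBU.Graph

set_option autoImplicit false

namespace Pool.Agent.Results.MP_c0f83f_co.GirthSeven

open Set

/-- The closed axis-parallel rectangle `[l v, r v] × [b v, t v]` assigned to the vertex `v`. -/
def rect {V : Type} (l r b t : V → ℝ) (v : V) : Set (ℝ × ℝ) :=
  Icc (l v) (r v) ×ˢ Icc (b v) (t v)

/-- `G` is 2-CBU: there are closed axis-parallel rectangles with nonempty interior, with pairwise
disjoint interiors, any two of which are disjoint or meet in a segment of positive length
orthogonal to `e₁` (a vertical segment), such that two vertices are adjacent if and only if their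
rectangles meet. -/
def TwoCBU {V : Type} (G : SimpleGraph V) : Prop :=
  ∃ l r b t : V → ℝ,
    (∀ v, l v < r v ∧ b v < t v) ∧
    (∀ u v, u ≠ v → Disjoint (interior (rect l r b t u)) (interior (rect l r b t v))) ∧
    (∀ u v, u ≠ v → rect l r b t u ∩ rect l r b t v = ∅ ∨
      ∃ x y₁ y₂ : ℝ, y₁ < y₂ ∧ rect l r b t u ∩ rect l r b t v = {x} ×ˢ Icc y₁ y₂) ∧
    (∀ u v, u ≠ v → (G.Adj u v ↔ (rect l r b t u ∩ rect l r b t v).Nonempty))

/-- `G` has a `K₄` minor: there are four pairwise disjoint vertex sets, each inducing a connected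
subgraph, any two of which are joined by an edge of `G`. A graph is series-parallel if it has no
`K₄` minor. -/
def HasK4Minor {V : Type} (G : SimpleGraph V) : Prop :=
  ∃ f : Fin 4 → Set V, (∀ i, (G.induce (f i)).Connected) ∧
    (∀ i j, i ≠ j → Disjoint (f i) (f j)) ∧
    (∀ i j, i ≠ j → ∃ a ∈ f i, ∃ b ∈ f j, G.Adj a b)

/-- Every finite series-parallel graph of girth at least `7` (in particular every forest) is
2-CBU. -/
theorem result : ∀ (V : Type) [Finite V] (G : SimpleGraph V),
    ¬ HasK4Minor G → 7 ≤ G.egirth → TwoCBU G := by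
  intro V _ G hK hg
  obtain ⟨D, K, hV, -⟩ := Pool.Agent.R299.CBU.drawable G hg hK
  have hS : ∀ v, rect (fun v => (D v).l) (fun v => (D v).r) (fun v => (D v).b)
      (fun v => (D v).t) v = (D v).S := fun v => rfl
  have hmeet : ∀ u v, u ≠ v → G.Adj u v → ∃ x y₁ y₂ : ℝ, y₁ < y₂ ∧
      (D u).S ∩ (D v).S = {x} ×ˢ Icc y₁ y₂ := by
    intro u v huv hadj
    obtain ⟨h1, h2⟩ := hV.tch u (mem_univ u) v (mem_univ v) huv hadj
    have hu := hV.ok u (mem_univ u)
    have hv := hV.ok v (mem_univ v)
    obtain ⟨hu1, hu2⟩ := hu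
    obtain ⟨hv1, hv2⟩ := hv
    have hint : (D u).S ∩ (D v).S = Icc (max (D u).l (D v).l) (min (D u).r (D v).r) ×ˢ
        Icc (max (D u).b (D v).b) (min (D u).t (D v).t) := by
      show (Icc _ _ ×ˢ Icc _ _) ∩ (Icc _ _ ×ˢ Icc _ _) = _
      rw [prod_inter_prod, Icc_inter_Icc, Icc_inter_Icc]
    rcases h1 with h1 | h1
    · refine ⟨(D u).r, _, _, h2, ?_⟩
      rw [hint]
      have e1 : max (D u).l (D v).l = (D u).r := by
        rw [h1]; apply max_eq_right; linarith
      have e2 : min (D u).r (D v).r = (D u).r := by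
        apply min_eq_left; linarith
      rw [e1, e2, Icc_self]
    · refine ⟨(D v).r, _, _, h2, ?_⟩
      rw [hint]
      have e1 : max (D u).l (D v).l = (D v).r := by
        rw [h1]; apply max_eq_left; linarith
      have e2 : min (D u).r (D v).r = (D v).r := by
        apply min_eq_right; linarith
      rw [e1, e2, Icc_self]
  refine ⟨fun v => (D v).l, fun v => (D v).r, fun v => (D v).b, fun v => (D v).t, ?_, ?_, ?_, ?_⟩
  · intro v
    exact hV.ok v (mem_univ v)
  · intro u v huv
    by_cases hadj : G.Adj u v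
    · obtain ⟨h1, -⟩ := hV.tch u (mem_univ u) v (mem_univ v) huv hadj
      rw [Set.disjoint_left]
      intro z hz hz'
      unfold rect at hz hz'
      rw [interior_prod_eq, interior_Icc, interior_Icc] at hz hz'
      have a1 : z.1 < (D u).r := hz.1.2
      have a2 : (D u).l < z.1 := hz.1.1
      have a3 : z.1 < (D v).r := hz'.1.2
      have a4 : (D v).l < z.1 := hz'.1.1
      rcases h1 with h1 | h1 <;> linarith
    · exact (hV.dj u (mem_univ u) v (mem_univ v) huv hadj).mono interior_subset interior_subset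
  · intro u v huv
    by_cases hadj : G.Adj u v
    · right
      exact hmeet u v huv hadj
    · left
      exact Set.disjoint_iff_inter_eq_empty.1
        (hV.dj u (mem_univ u) v (mem_univ v) huv hadj)
  · intro u v huv
    constructor
    · intro hadj
      obtain ⟨x, y₁, y₂, h1, h2⟩ := hmeet u v huv hadj
      show ((D u).S ∩ (D v).S).Nonempty
      rw [h2]
      exact ⟨(x, y₁), rfl, left_mem_Icc.2 h1.le⟩
    · intro hne
      by_contra hadj
      have h1 := Set.disjoint_iff_inter_eq_empty.1
        (hV.dj u (mem_univ u) v (mem_univ v) huv hadj)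
      obtain ⟨z, hz⟩ := hne
      have hz' : z ∈ (D u).S ∩ (D v).S := hz
      rw [h1] at hz'
      exact hz'

end Pool.Agent.Results.MP_c0f83f_co.GirthSeven
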